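import Pool.Agent.Lib.MP_a20de0_al.CDR.Defs

set_option autoImplicit false

/-! CDR-Coind.  Every module `N` over the corner `f A f` is `f M` for an `A`-module `M`: `M = Hom_{fAf}(f A, N)` with `(a φ)(x) = φ(x a)`;
`f M ≅ N` by `φ ↦ φ(f)`, inverse `y ↦ (x ↦ (x f) y)`.  (Define `M` as a structure or as the additive group of the `hf.Corner`-linear maps
`CDC.FM hf A → N`, with your own `Module A` instance; all instances local to the proof or private.) -/

namespace Pool.Agent.CDR

private def coindS {A : Type} [Ring A] {f : A} (hf : IsIdempotentElem f) (N : Type) [AddCommGroup N]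
    [Module hf.Corner N] : AddSubgroup (A →+ N) where
  carrier := {φ | ∀ (c : hf.Corner) (x : A), φ (c.1 * x) = c • φ x}
  zero_mem' := fun c x => (smul_zero c).symm
  add_mem' := fun {φ ψ} hφ hψ c x => by
    show φ (c.1 * x) + ψ (c.1 * x) = c • (φ x + ψ x)
    rw [hφ, hψ, smul_add]
  neg_mem' := fun {φ} hφ c x => by
    show -φ (c.1 * x) = c • (-φ x)
    rw [hφ, smul_neg]

private def coindAct {A : Type} [Ring A] {f : A} (hf : IsIdempotentElem f) (N : Type) [AddCommGroup N]
    [Module hf.Corner N] (a : A) (φ : coindS hf N) : coindS hf N :=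
  ⟨φ.1.comp (AddMonoidHom.mulRight a), fun c x => by
    show φ.1 (c.1 * x * a) = c • φ.1 (x * a)
    rw [mul_assoc]
    exact φ.2 c (x * a)⟩

@[reducible] private def coindMod {A : Type} [Ring A] {f : A} (hf : IsIdempotentElem f) (N : Type) [AddCommGroup N]
    [Module hf.Corner N] : Module A (coindS hf N) where
  smul := coindAct hf N
  one_smul φ := Subtype.ext (AddMonoidHom.ext fun x => congrArg φ.1 (mul_one x))
  mul_smul a b φ := Subtype.ext (AddMonoidHom.ext fun x => congrArg φ.1 (mul_assoc x a b).symm)
  smul_zero a := Subtype.ext (AddMonoidHom.ext fun x => rfl)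
  smul_add a φ ψ := Subtype.ext (AddMonoidHom.ext fun x => rfl)
  add_smul a b φ := Subtype.ext (AddMonoidHom.ext fun x => by
    show φ.1 (x * (a + b)) = φ.1 (x * a) + φ.1 (x * b)
    rw [mul_add, map_add])
  zero_smul φ := Subtype.ext (AddMonoidHom.ext fun x => by
    show φ.1 (x * 0) = 0
    rw [mul_zero, map_zero])

private theorem coindC {A : Type} [Ring A] {f : A} (hf : IsIdempotentElem f) (x : A) :
    f * (f * x * f) = f * x * f ∧ f * x * f * f = f * x * f := by
  refine ⟨?_, ?_⟩
  · rw [← mul_assoc, ← mul_assoc, hf.eq]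
  · rw [mul_assoc, hf.eq]

private def coindInv {A : Type} [Ring A] {f : A} (hf : IsIdempotentElem f) (N : Type) [AddCommGroup N]
    [Module hf.Corner N] (y : N) : coindS hf N :=
  ⟨{ toFun := fun x => CDC.mkC hf (f * x * f) (coindC hf x) • y
     map_zero' := by
      have h : CDC.mkC hf (f * 0 * f) (coindC hf 0) = 0 := Subtype.ext (by
        show f * 0 * f = 0
        rw [mul_zero, zero_mul])
      rw [h]
      exact zero_smul hf.Corner y
     map_add' := fun a b => by
      have h : CDC.mkC hf (f * (a + b) * f) (coindC hf (a + b)) =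
          CDC.mkC hf (f * a * f) (coindC hf a) + CDC.mkC hf (f * b * f) (coindC hf b) := Subtype.ext (by
        show f * (a + b) * f = f * a * f + f * b * f
        rw [mul_add, add_mul])
      rw [h, add_smul] }, fun c x => by
    show CDC.mkC hf (f * (c.1 * x) * f) (coindC hf (c.1 * x)) • y = c • (CDC.mkC hf (f * x * f) (coindC hf x) • y)
    rw [← mul_smul]
    refine congrArg (fun d : hf.Corner => d • y) (Subtype.ext ?_)
    show f * (c.1 * x) * f = c.1 * (f * x * f)
    rw [← mul_assoc f c.1 x, (CDC.corner_mem hf c).1, mul_assoc f x f, ← mul_assoc c.1 f, (CDC.corner_mem hf c).2, mul_assoc]⟩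

theorem coind {A : Type} [Ring A] {f : A} (hf : IsIdempotentElem f) (N : Type) [AddCommGroup N]
    [Module hf.Corner N] : ∃ (M : Type) (_ : AddCommGroup M) (_ : Module A M),
      Nonempty (CDC.FM hf M ≃ₗ[hf.Corner] N) := by
  refine ⟨coindS hf N, inferInstance, coindMod hf N, ⟨?_⟩⟩
  let _ : Module A (coindS hf N) := coindMod hf N
  have h1 : ∀ φ : coindS hf N, ∀ x : A, φ.1 (f * x) = φ.1 x := fun φ x => by
    have h := φ.2 (1 : hf.Corner) x
    rwa [one_smul] at h
  exact
    { toFun := fun φ => φ.1.1 1
      map_add' := fun φ ψ => rfl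
      map_smul' := fun c φ => by
        show φ.1.1 (1 * c.1) = c • φ.1.1 1
        rw [one_mul, ← φ.1.2 c 1, mul_one]
      invFun := fun y => CDC.mkF hf (coindS hf N) (x := coindInv hf N y) (Subtype.ext (AddMonoidHom.ext fun x => by
        show CDC.mkC hf (f * (x * f) * f) (coindC hf (x * f)) • y = CDC.mkC hf (f * x * f) (coindC hf x) • y
        refine congrArg (fun d : hf.Corner => d • y) (Subtype.ext ?_)
        show f * (x * f) * f = f * x * f
        rw [← mul_assoc f x f, mul_assoc (f * x) f f, hf.eq]))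
      left_inv := fun φ => by
        refine Subtype.ext (Subtype.ext (AddMonoidHom.ext fun x => ?_))
        show CDC.mkC hf (f * x * f) (coindC hf x) • φ.1.1 1 = φ.1.1 x
        rw [← φ.1.2 (CDC.mkC hf (f * x * f) (coindC hf x)) 1]
        show φ.1.1 (f * x * f * 1) = φ.1.1 x
        rw [mul_one, mul_assoc, h1 φ.1]
        exact congrArg (fun ψ : coindS hf N => ψ.1 x) (CDC.FM_mem hf (coindS hf N) φ)
      right_inv := fun y => by
        show CDC.mkC hf (f * 1 * f) (coindC hf 1) • y = y
        have h : CDC.mkC hf (f * 1 * f) (coindC hf 1) = 1 := Subtype.ext (by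
          show f * 1 * f = f
          rw [mul_one, hf.eq])
        rw [h, one_smul] }

end Pool.Agent.CDR
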