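import Pool.Agent.Lib.MP_a20de0_al.CDC.CornerMod

set_option autoImplicit false

/-! Board CDR (MP_a20de0_al, third theorem): removing a simple module of projective dimension `≤ 1` from an elementary algebra. -/

namespace Pool.Agent.CDR
open CategoryTheory

/-- left global dimension `< m` -/
def GlLT (A : Type) [Ring A] (m : ℕ) : Prop :=
  ∀ M : ModuleCat.{0} A, HasProjectiveDimensionLT M m

end Pool.Agent.CDR
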