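import Pool.Agent.Lib.MP_a20de0_al.CDN.El
import Pool.Agent.Lib.MP_a20de0_al.CDC.Rad

set_option autoImplicit false

/-! CDR-ElC.  The corner at a sum of some of the `e_j` of an elementary algebra is elementary: `f a f = ∑ c_j f e_j f + f y f`, `y ∈ J`, and
`f y f ∈ J(fAf)` (`CDC.corner_rad`; `J` is two-sided). -/

namespace Pool.Agent.CDR

private theorem ElC_sum {k : Type} [Field k] {A : Type} [Ring A] [Algebra k A] {f : A} (hf : IsIdempotentElem f) {m : ℕ}
    (s : Finset (Fin m)) (g : Fin m → hf.Corner) : (∑ j ∈ s, g j).1 = ∑ j ∈ s, (g j).1 := by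
  classical
  induction s using Finset.induction_on with
  | empty => rw [Finset.sum_empty, Finset.sum_empty]; rfl
  | insert a s ha ih =>
    rw [Finset.sum_insert ha, Finset.sum_insert ha, CDC.corner_add, ih]

theorem elem_corner {k : Type} [Field k] {A : Type} [Ring A] [Algebra k A] [Module.Finite k A] {n m : ℕ} {e : Fin n → A}
    (h : CDN.Elem k e) (τ : Fin m → Fin n) (hτ : Function.Injective τ) (hf : IsIdempotentElem (∑ j, e (τ j)))
    (g : Fin m → hf.Corner) (hg : ∀ j, (g j).1 = e (τ j)) : CDN.Elem k g := by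
  have hmid : ∀ (i : Fin n) (c : Fin n → k), e i * (∑ l, c l • e l) = c i • e i := by
    intro i c
    rw [Finset.mul_sum, Finset.sum_eq_single i]
    · rw [mul_smul_comm, (h.idem i).eq]
    · intro l _ hl
      rw [mul_smul_comm, h.orth i l hl.symm, smul_zero]
    · intro h0
      exact absurd (Finset.mem_univ _) h0
  have hef : ∀ j, e (τ j) * (∑ l, e (τ l)) = e (τ j) := by
    intro j
    rw [Finset.mul_sum, Finset.sum_eq_single j]
    · exact (h.idem _).eq
    · intro l _ hl
      exact h.orth _ _ fun h' => hl (hτ h').symm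
    · intro h0
      exact absurd (Finset.mem_univ _) h0
  refine ⟨fun j => ?_, fun j hj => ?_, fun i j hij => ?_, ?_, fun a => ?_⟩
  · apply Subtype.ext
    show (g j).1 * (g j).1 = (g j).1
    rw [hg, (h.idem _).eq]
  · apply h.ne (τ j)
    rw [← hg, hj]
    rfl
  · apply Subtype.ext
    show (g i).1 * (g j).1 = 0
    rw [hg, hg]
    exact h.orth _ _ fun h' => hij (hτ h')
  · apply Subtype.ext
    rw [ElC_sum (k := k) hf]
    simp only [hg]
    rfl
  · obtain ⟨c, hc⟩ := h.elem a.1
    refine ⟨fun j => c (τ j), ?_⟩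
    apply CDC.corner_rad hf
    have h1 : (a - ∑ j, c (τ j) • g j).1 = a.1 - ∑ j, c (τ j) • e (τ j) := by
      have h2 : (a - ∑ j, c (τ j) • g j).1 = a.1 - (∑ j, c (τ j) • g j).1 := rfl
      rw [h2, ElC_sum (k := k) hf]
      congr 1
      refine Finset.sum_congr rfl fun j _ => ?_
      rw [CDC.corner_smul, hg]
    have h3 : (∑ j, e (τ j)) * (∑ i, c i • e i) * (∑ j, e (τ j)) = ∑ j, c (τ j) • e (τ j) := by
      have h5 : (∑ j, e (τ j)) * (∑ i, c i • e i) = ∑ j, c (τ j) • e (τ j) := by
        rw [Finset.sum_mul]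
        exact Finset.sum_congr rfl fun j _ => hmid (τ j) c
      rw [h5, Finset.sum_mul]
      refine Finset.sum_congr rfl fun j _ => ?_
      rw [smul_mul_assoc, hef]
    have h4 : a.1 - ∑ j, c (τ j) • e (τ j) = (∑ j, e (τ j)) * (a.1 - ∑ i, c i • e i) * (∑ j, e (τ j)) := by
      rw [mul_sub, sub_mul, h3, (CDC.corner_mem hf a).1, (CDC.corner_mem hf a).2]
    rw [h1, h4]
    exact Ideal.mul_mem_right _ _ (Ideal.mul_mem_left _ _ hc)

end Pool.Agent.CDR
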