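import Pool.Agent.Lib.MP_a20de0_al.CDR.Defs
import Pool.Agent.Lib.MP_a20de0_al.CDN.Cover
import Pool.Agent.Lib.MP_a20de0_al.CDN.LenS

set_option autoImplicit false

/-! CDR-FAProj.  `A` elementary, `f = 1 - e_i`, the simple module at `e_i` has projective dimension `≤ 1`: `f A` is projective over `f A f`.
`A ≅ ∏_j A e_j` (`x ↦ (x e_j)_j`), so `f A ≅ ∏_j f (A e_j)` (a finite product).  `j ≠ i`: `f (A e_j) ≅ (fAf) e_j` (`CDC.FM_Le`), projective.
`j = i`: `I = J e_i` (`CDN.exists_simple`), `N = A e_i / I` has projective dimension `≤ 1`, so `I` is projective; `u : X = XM e σ → A e_i` of `CDN.cover` has range `I`, so `I` is a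
direct summand of `X`, so `f I` is a direct summand of `f X`, which is projective (`CDC.FM_XM_proj`-like, for the family of the `e_j`, `j ≠ i`; `σ t ≠ i`); and `f (A e_i) = f I`
because `f N = 0` (`f e_i a e_i ∈ ..`: `f A e_i ⊆ J`, `CDN.el_rad`). -/

namespace Pool.Agent.CDR
open CategoryTheory

variable {k : Type} [Field k] {A : Type} [Ring A] [Algebra k A] [Module.Finite k A] {n : ℕ} {e : Fin n → A}

private theorem fap_mem (h : CDN.Elem k e) (i j : Fin n) (hj : j ≠ i) : (1 - e i) * e j = e j ∧ e j * (1 - e i) = e j := by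
  constructor
  · rw [sub_mul, one_mul, h.orth i j hj.symm, sub_zero]
  · rw [mul_sub, mul_one, h.orth j i hj, sub_zero]

/-- the old summands -/
private theorem fap_old (h : CDN.Elem k e) (i : Fin n) (hf : IsIdempotentElem (1 - e i)) (j : Fin n) (hj : j ≠ i) :
    Module.Projective hf.Corner (CDC.FM hf (CDC.Le (e j))) := by
  have hg : IsIdempotentElem (CDC.mkC hf (e j) (fap_mem h i j hj)) := Subtype.ext (h.idem j).eq
  obtain ⟨θ⟩ := CDC.FM_Le hf (CDC.mkC hf (e j) (fap_mem h i j hj))
  have : Module.Projective hf.Corner (CDC.Le (CDC.mkC hf (e j) (fap_mem h i j hj))) := CDC.proj_Le hg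
  have h2 : Module.Projective hf.Corner (CDC.FM hf (CDC.Le (CDC.mkC hf (e j) (fap_mem h i j hj)).1)) :=
    Module.Projective.of_equiv θ.symm
  exact h2

/-- `f X` is projective -/
private theorem fap_XM (h : CDN.Elem k e) (i : Fin n) (hf : IsIdempotentElem (1 - e i)) {r : ℕ} (σ : Fin r → Fin n)
    (hσ : ∀ t, σ t ≠ i) : Module.Projective hf.Corner (CDC.FM hf (CDC.XM e σ)) := by
  have h1 : Module.Projective hf.Corner (CDC.FM hf (CDC.XM (fun j : {j : Fin n // j ≠ i} => e j.1) (fun t => ⟨σ t, hσ t⟩))) :=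
    CDC.FM_XM_proj hf (e := fun j : {j : Fin n // j ≠ i} => e j.1) (fun j => h.idem j.1)
      (fun j => CDC.mkC hf (e j.1) (fap_mem h i j.1 j.2)) (fun _ => rfl) (fun t => ⟨σ t, hσ t⟩)
  exact h1

/-- an element of `f A e_i` lies in the radical -/
private theorem fap_rad (h : CDN.Elem k e) (i : Fin n) (x : CDC.Le (e i)) (hx : (1 - e i) * (x : A) = x) :
    (x : A) ∈ (⊥ : Ideal A).jacobson := by
  obtain ⟨a, ha⟩ := Submodule.mem_span_singleton.1 x.2
  rw [smul_eq_mul] at ha
  have h1 : (1 : A) - e i = ∑ j ∈ Finset.univ.erase i, e j := by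
    rw [← h.sum, ← Finset.add_sum_erase Finset.univ e (Finset.mem_univ i)]
    abel
  rw [← hx, h1, Finset.sum_mul]
  refine Ideal.sum_mem _ fun j hj => ?_
  rw [← ha, ← mul_assoc]
  exact CDN.el_rad h j i (Finset.ne_of_mem_erase hj) a

/-- the radical of `A e_i` is projective -/
private theorem fap_I (i : Fin n) (he : IsIdempotentElem (e i)) (I : Submodule A (CDC.Le (e i)))
    (hI : HasProjectiveDimensionLT (ModuleCat.of A (CDC.Le (e i) ⧸ I)) 2) : Module.Projective A I := by
  let C : ShortComplex (ModuleCat.{0} A) :=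
    ShortComplex.mk (ModuleCat.ofHom I.subtype) (ModuleCat.ofHom I.mkQ) (by
      ext x
      simp)
  have hC : C.ShortExact :=
    { exact := by
        rw [ShortComplex.moduleCat_exact_iff]
        intro x hx
        have hx' : I.mkQ x = 0 := hx
        rw [Submodule.mkQ_apply, Submodule.Quotient.mk_eq_zero] at hx'
        exact ⟨⟨x, hx'⟩, rfl⟩
      mono_f := (ModuleCat.mono_iff_injective _).2 I.subtype_injective
      epi_g := (ModuleCat.epi_iff_surjective _).2 I.mkQ_surjective }
  have hP : Projective C.X₂ := by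
    change Projective (ModuleCat.of A (CDC.Le (e i)))
    rw [← IsProjective.iff_projective]
    exact CDC.proj_Le he
  have h2 : HasProjectiveDimensionLT C.X₂ 1 := projective_iff_hasProjectiveDimensionLT_one.1 hP
  have h1 : HasProjectiveDimensionLT C.X₁ 1 := hC.hasProjectiveDimensionLT_X₁ 1 h2 hI
  have h0 : Projective (ModuleCat.of A I) := projective_iff_hasProjectiveDimensionLT_one.2 h1
  rwa [← IsProjective.iff_projective] at h0

/-- the new summand -/
private theorem fap_new (h : CDN.Elem k e) (hgl : CDC.FinGl A) (i : Fin n) (hf : IsIdempotentElem (1 - e i))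
    (hpd : ∀ N : ModuleCat.{0} A, IsSimpleModule A N → (∃ y : N, e i • y ≠ 0) → HasProjectiveDimensionLT N 2) :
    Module.Projective hf.Corner (CDC.FM hf (CDC.Le (e i))) := by
  obtain ⟨I, hIs, hIJ, hy⟩ := CDN.exists_simple h i
  obtain ⟨r, σ, u, hσ, hu⟩ := CDN.cover h hgl i
  have hIp : Module.Projective A I := fap_I i (h.idem i) I (hpd (ModuleCat.of A (CDC.Le (e i) ⧸ I)) hIs hy)
  have hX := fap_XM h i hf σ hσ
  have huI : ∀ x, u x ∈ I := fun x => (hIJ _).2 ((hu _).1 ⟨x, rfl⟩)
  have hsur : Function.Surjective (u.codRestrict I huI) := by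
    intro y
    obtain ⟨x, hx⟩ := (hu y.1).2 ((hIJ _).1 y.2)
    exact ⟨x, Subtype.ext hx⟩
  obtain ⟨v, hv⟩ := Module.projective_lifting_property (u.codRestrict I huI) LinearMap.id hsur
  have hv' : ∀ y : I, u (v y) = y.1 := fun y => congrArg Subtype.val (LinearMap.congr_fun hv y)
  have hmem : ∀ x : CDC.FM hf (CDC.Le (e i)), x.1 ∈ I := fun x =>
    (hIJ _).2 (fap_rad h i x.1 (congrArg Subtype.val (CDC.FM_mem hf (CDC.Le (e i)) x)))
  let κ : CDC.FM hf (CDC.Le (e i)) →ₗ[hf.Corner] CDC.FM hf I :=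
    { toFun := fun x => CDC.mkF hf I (x := ⟨x.1, hmem x⟩) (Subtype.ext (CDC.FM_mem hf (CDC.Le (e i)) x))
      map_add' := fun _ _ => rfl
      map_smul' := fun _ _ => rfl }
  refine Module.Projective.of_split ((CDC.FMap hf v) ∘ₗ κ) (CDC.FMap hf u) ?_
  ext x
  apply Subtype.ext
  exact hv' ⟨x.1, hmem x⟩

theorem fA_proj {k : Type} [Field k] {A : Type} [Ring A] [Algebra k A] [Module.Finite k A] {n : ℕ} {e : Fin n → A}
    (h : CDN.Elem k e) (hgl : CDC.FinGl A) (i : Fin n) (hf : IsIdempotentElem (1 - e i))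
    (hpd : ∀ N : ModuleCat.{0} A, IsSimpleModule A N → (∃ y : N, e i • y ≠ 0) → HasProjectiveDimensionLT N 2) :
    Module.Projective hf.Corner (CDC.FM hf A) := by
  have hP : ∀ j, Module.Projective hf.Corner (CDC.FM hf (CDC.Le (e j))) := by
    intro j
    by_cases hj : j = i
    · subst hj
      exact fap_new h hgl j hf hpd
    · exact fap_old h i hf j hj
  have hPi : Module.Projective hf.Corner (∀ j, CDC.FM hf (CDC.Le (e j))) :=
    Module.Projective.of_equiv (DFinsupp.linearEquivFunOnFintype (R := hf.Corner) (M := fun j => CDC.FM hf (CDC.Le (e j))))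
  let ρ : ∀ j, A →ₗ[A] CDC.Le (e j) := fun j =>
    LinearMap.toSpanSingleton A (CDC.Le (e j)) ⟨e j, Submodule.mem_span_singleton_self (e j)⟩
  let a : CDC.FM hf A →ₗ[hf.Corner] (∀ j, CDC.FM hf (CDC.Le (e j))) := LinearMap.pi fun j => CDC.FMap hf (ρ j)
  let b : (∀ j, CDC.FM hf (CDC.Le (e j))) →ₗ[hf.Corner] CDC.FM hf A :=
    ∑ j, (CDC.FMap hf (Submodule.subtype (Submodule.span A ({e j} : Set A)))) ∘ₗ (LinearMap.proj j)
  have hb : ∀ y : (∀ j, CDC.FM hf (CDC.Le (e j))), (b y).1 = ∑ j, ((y j).1 : A) := by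
    intro y
    have h1 : b y = ∑ j, CDC.FMap hf (Submodule.subtype (Submodule.span A ({e j} : Set A))) (y j) := by
      rw [LinearMap.sum_apply]
      rfl
    rw [h1]
    have h2 : ∀ s : Finset (Fin n), (∑ j ∈ s, CDC.FMap hf (Submodule.subtype (Submodule.span A ({e j} : Set A))) (y j)).1 =
        ∑ j ∈ s, ((y j).1 : A) := by
      intro s
      induction s using Finset.induction_on with
      | empty => rfl
      | insert j s hj ih =>
        rw [Finset.sum_insert hj, Finset.sum_insert hj, CDC.FM_add, ih]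
        rfl
    exact h2 _
  refine Module.Projective.of_split a b ?_
  ext x
  apply Subtype.ext
  show (b (a x)).1 = x.1
  rw [hb]
  have h3 : ∀ j, (((a x) j).1 : A) = x.1 * e j := fun j => rfl
  rw [Finset.sum_congr rfl fun j _ => h3 j, ← Finset.mul_sum, h.sum, mul_one]

end Pool.Agent.CDR
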