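import Pool.Agent.Lib.MP_a20de0_al.CDR.FMProj

set_option autoImplicit false

/-! CDR-FMPd.  `pd f M ≤ pd M`, if `f A` is projective over the corner. -/

namespace Pool.Agent.CDR
open CategoryTheory

/-- a surjection `u : P → M` with kernel `K` gives a short exact sequence `0 → f K → f P → f M → 0` -/
private theorem FM_shortExact {A : Type} [Ring A] {f : A} (hf : IsIdempotentElem f)
    {P M : Type} [AddCommGroup P] [Module A P] [AddCommGroup M] [Module A M] (u : P →ₗ[A] M)
    (hu : Function.Surjective u) :
    ∃ S : ShortComplex (ModuleCat.{0} hf.Corner), S.ShortExact ∧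
      S.X₁ = ModuleCat.of hf.Corner (CDC.FM hf (LinearMap.ker u)) ∧
      S.X₂ = ModuleCat.of hf.Corner (CDC.FM hf P) ∧ S.X₃ = ModuleCat.of hf.Corner (CDC.FM hf M) := by
  have h0 : (CDC.FMap hf u).comp (CDC.FMap hf (LinearMap.ker u).subtype) = 0 := by
    refine LinearMap.ext fun x => ?_
    apply Subtype.ext
    exact x.1.2
  refine ⟨ModuleCat.shortComplexOfCompEqZero _ _ h0, ?_, rfl, rfl, rfl⟩
  apply ModuleCat.shortComplex_shortExact
  · intro x
    constructor
    · intro hx
      have hx' : u x.1 = 0 := congrArg Subtype.val hx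
      have hk : f • (⟨x.1, hx'⟩ : LinearMap.ker u) = ⟨x.1, hx'⟩ := Subtype.ext (CDC.FM_mem hf P x)
      exact ⟨CDC.mkF hf (LinearMap.ker u) hk, rfl⟩
    · rintro ⟨y, rfl⟩
      exact LinearMap.congr_fun h0 y
  · intro x y hxy
    apply Subtype.ext
    apply Subtype.ext
    have h1 : CDC.FMap hf (LinearMap.ker u).subtype x = CDC.FMap hf (LinearMap.ker u).subtype y := hxy
    show (CDC.FMap hf (LinearMap.ker u).subtype x).1 = (CDC.FMap hf (LinearMap.ker u).subtype y).1
    rw [h1]
  · intro y
    obtain ⟨x, hx⟩ := hu y.1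
    have hk : f • (f • x) = f • x := by rw [← mul_smul, hf.eq]
    refine ⟨CDC.mkF hf P hk, ?_⟩
    apply Subtype.ext
    show u (f • x) = y.1
    rw [map_smul, hx]
    exact CDC.FM_mem hf M y

theorem FM_pd {A : Type} [Ring A] {f : A} (hf : IsIdempotentElem f)
    (hA : Module.Projective hf.Corner (CDC.FM hf A)) (m : ℕ) : ∀ (M : Type) [AddCommGroup M] [Module A M],
    HasProjectiveDimensionLT (ModuleCat.of A M) m →
      HasProjectiveDimensionLT (ModuleCat.of hf.Corner (CDC.FM hf M)) m := by
  induction m with
  | zero =>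
    intro M _ _ h
    rw [hasProjectiveDimensionLT_zero_iff_isZero] at h ⊢
    have h1 : Subsingleton M := ModuleCat.subsingleton_of_isZero h
    have h2 : Subsingleton (CDC.FM hf M) := ⟨fun x y => Subtype.ext (Subsingleton.elim x.1 y.1)⟩
    exact ModuleCat.isZero_of_subsingleton _
  | succ m ih =>
    intro M _ _ h
    rcases m with _ | m
    · rw [zero_add] at h ⊢
      rw [← projective_iff_hasProjectiveDimensionLT_one] at h ⊢
      have h1 : Module.Projective A M := (IsProjective.iff_projective M).2 h
      exact (IsProjective.iff_projective _).1 (FM_proj hf hA M)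
    · have hsurj : Function.Surjective (Finsupp.linearCombination A (id : M → M)) :=
        Finsupp.linearCombination_id_surjective A M
      have hP : Projective (ModuleCat.of A (M →₀ A)) := (IsProjective.iff_projective _).1 inferInstance
      have hK := (((LinearMap.shortExact_shortComplexKer hsurj).hasProjectiveDimensionLT_X₃_iff m hP).1 h)
      have hK' := ih (LinearMap.ker (Finsupp.linearCombination A (id : M → M))) hK
      obtain ⟨S, hS, h1, h2, h3⟩ := FM_shortExact hf _ hsurj
      have hP2 : Projective S.X₂ := by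
        rw [h2]
        exact (IsProjective.iff_projective _).1 (FM_proj hf hA (M →₀ A))
      rw [← h1] at hK'
      rw [← h3]
      exact (hS.hasProjectiveDimensionLT_X₃_iff m hP2).2 hK'

end Pool.Agent.CDR
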