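import Pool.Agent.Lib.MP_a20de0_al.CDR.Defs

set_option autoImplicit false

/-! CDR-FMProj.  If `f A` is projective over the corner then `f P` is projective for each projective `A`-module `P`:
`P` is a direct summand of `P →₀ A` (`Finsupp.linearCombination A id` splits), `f (P →₀ A) ≅ P →₀ f A` is projective, and `CDC.FMap` preserves the splitting
(`Module.Projective.of_split`). -/

namespace Pool.Agent.CDR

private noncomputable def FMProj_equiv {A : Type} [Ring A] {f : A} (hf : IsIdempotentElem f) (P : Type) :
    CDC.FM hf (P →₀ A) ≃ₗ[hf.Corner] (P →₀ CDC.FM hf A) := by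
  classical
  have hval : ∀ (x : CDC.FM hf (P →₀ A)) (p : P), f • x.1 p = x.1 p := fun x p =>
    DFunLike.congr_fun (CDC.FM_mem hf (P →₀ A) x) p
  let g : CDC.FM hf (P →₀ A) → P → CDC.FM hf A := fun x p => CDC.mkF hf A (hval x p)
  exact
    { toFun := fun x => Finsupp.onFinset x.1.support (g x) (fun p hp => by
        rw [Finsupp.mem_support_iff]
        intro h0
        exact hp (Subtype.ext h0))
      map_add' := fun x y => Finsupp.ext fun p => rfl
      map_smul' := fun a x => Finsupp.ext fun p => rfl
      invFun := fun y => CDC.mkF hf (P →₀ A) (x := Finsupp.onFinset y.support (fun p => (y p).1) (fun p hp => by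
        rw [Finsupp.mem_support_iff]
        intro h0
        apply hp
        rw [h0]
        rfl)) (Finsupp.ext fun p => CDC.FM_mem hf A (y p))
      left_inv := fun x => Subtype.ext (Finsupp.ext fun p => rfl)
      right_inv := fun y => Finsupp.ext fun p => rfl }

theorem FM_proj {A : Type} [Ring A] {f : A} (hf : IsIdempotentElem f)
    (hA : Module.Projective hf.Corner (CDC.FM hf A)) (P : Type) [AddCommGroup P] [Module A P]
    [Module.Projective A P] : Module.Projective hf.Corner (CDC.FM hf P) := by
  classical
  obtain ⟨s, hs⟩ := (inferInstance : Module.Projective A P).out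
  have h1 : Module.Projective hf.Corner (P →₀ CDC.FM hf A) :=
    Module.Projective.of_equiv (finsuppLequivDFinsupp (ι := P) (M := CDC.FM hf A) hf.Corner).symm
  have h2 : Module.Projective hf.Corner (CDC.FM hf (P →₀ A)) :=
    Module.Projective.of_equiv (FMProj_equiv hf P).symm
  refine Module.Projective.of_split (CDC.FMap hf s) (CDC.FMap hf (Finsupp.linearCombination A id)) ?_
  ext x
  exact Subtype.ext (hs x.1)

end Pool.Agent.CDR
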