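import Pool.Agent.Lib.MP_a20de0_al.CDR.GlCorner
import Pool.Agent.Lib.MP_a20de0_al.CDR.FAProj
import Pool.Agent.Lib.MP_a20de0_al.CDR.ElC
import Pool.Agent.Lib.MP_a20de0_al.CDN.Final
import Pool.Agent.Lib.MP_a20de0_al.CDC.Final

set_option autoImplicit false

/-! CDR-Final.  Assembly. -/

namespace Pool.Agent.CDR
open CategoryTheory

private theorem GlLT_corner_one {A : Type} [Ring A] {f : A} (hf : IsIdempotentElem f) (h1 : f = 1) (m : ℕ)
    (h : GlLT A m) : GlLT hf.Corner m := by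
  subst h1
  let φ : A ≃+* hf.Corner :=
    { toFun := fun a => CDC.mkC hf a ⟨one_mul a, mul_one a⟩
      invFun := fun x => x.1
      left_inv := fun _ => rfl
      right_inv := fun _ => rfl
      map_mul' := fun _ _ => rfl
      map_add' := fun _ _ => rfl }
  exact GlLT_ringEquiv φ m h

private theorem el_len_one {k : Type} [Field k] {A : Type} [Ring A] [Algebra k A] [Module.Finite k A] {n : ℕ}
    {e : Fin n → A} (h : CDN.Elem k e) (i : Fin n) : CDC.la k (e i) (e i) = CDC.lj k (e i) + 1 := by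
  obtain ⟨I, hI, _, y, hy⟩ := CDN.exists_simple h i
  have h1 := CDN.len_simple h (CDC.Le (e i) ⧸ I) hI i y hy i
  rw [if_pos rfl] at h1
  have h2 := (CDC.len_simple_self k (h.idem i) (CDN.el_loc h i) I hI).1
  have h3 : CDC.len k (e i) (CDC.Le (e i)) = CDC.la k (e i) (e i) := CDC.len_Le k (e i) (e i) (h.idem i)
  have h4 : CDC.la k (e i) (e i) = CDC.len k (e i) (CDC.Le (e i) ⧸ I) + CDC.lj k (e i) := by
    rw [← h3]
    exact h2
  omega

private theorem elem_corner' {k : Type} [Field k] {A : Type} [Ring A] [Algebra k A] [Module.Finite k A] {n m : ℕ}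
    {e : Fin n → A} (h : CDN.Elem k e) (τ : Fin m → Fin n) (hτ : Function.Injective τ) {f : A}
    (hf : IsIdempotentElem f) (hF : f = ∑ j, e (τ j))
    (g : Fin m → hf.Corner) (hg : ∀ j, (g j).1 = e (τ j)) : CDN.Elem k g := by
  subst hF
  exact elem_corner h τ hτ hf g hg

section

variable {k : Type} [Field k] {A : Type} [Ring A] [Algebra k A] [Module.Finite k A] {n : ℕ} {e : Fin (n + 2) → A}

private theorem sum_Iic (i : ℕ) (hi : i < n + 2) :
    (∑ j ∈ Finset.Iic (⟨i, hi⟩ : Fin (n + 2)), e j) = ∑ j : Fin (i + 1), e (Fin.castLE hi j) := by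
  symm
  refine Finset.sum_bij (fun j _ => Fin.castLE hi j) ?_ ?_ ?_ ?_
  · intro j _
    rw [Finset.mem_Iic, Fin.le_def]
    exact Nat.lt_succ_iff.mp j.2
  · intro a _ b _ hab
    exact Fin.castLE_injective hi hab
  · intro b hb
    rw [Finset.mem_Iic, Fin.le_def] at hb
    exact ⟨⟨b.1, Nat.lt_succ_iff.mpr hb⟩, Finset.mem_univ _, rfl⟩
  · intro _ _
    rfl

private theorem mem_ends (h : CDN.Elem k e) (i : ℕ) (hi : i < n + 2) {f : A}
    (hF : f = ∑ j ∈ Finset.Iic (⟨i, hi⟩ : Fin (n + 2)), e j) (j : Fin (n + 2)) (hj : j.1 ≤ i) :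
    f * e j = e j ∧ e j * f = e j := by
  have hmem : j ∈ Finset.Iic (⟨i, hi⟩ : Fin (n + 2)) := by
    rw [Finset.mem_Iic, Fin.le_def]
    exact hj
  subst hF
  constructor
  · rw [Finset.sum_mul, Finset.sum_eq_single j]
    · exact h.idem j
    · intro l _ hl; exact h.orth l j hl
    · intro h'; exact absurd hmem h'
  · rw [Finset.mul_sum, Finset.sum_eq_single j]
    · exact h.idem j
    · intro l _ hl; exact h.orth j l (Ne.symm hl)
    · intro h'; exact absurd hmem h'

private theorem exists_g (h : CDN.Elem k e) (i : ℕ) (hi : i < n + 2) {f : A} (hf : IsIdempotentElem f)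
    (hF : f = ∑ j ∈ Finset.Iic (⟨i, hi⟩ : Fin (n + 2)), e j) :
    ∃ g : Fin (i + 1) → hf.Corner, (∀ j, (g j).1 = e (Fin.castLE hi j)) ∧ CDN.Elem k g := by
  refine ⟨fun j => CDC.mkC hf (e (Fin.castLE hi j)) (mem_ends h i hi hF _ (Nat.lt_succ_iff.mp j.2)), fun j => rfl, ?_⟩
  exact elem_corner' h (Fin.castLE hi) (Fin.castLE_injective hi) hf (hF.trans (sum_Iic i hi)) _ (fun j => rfl)

private theorem gl_all (h : CDN.Elem k e) (h3 : GlLT A 4)
    (hflag : ∀ i : Fin (n + 2), 2 ≤ i.1 → ∀ hf : IsIdempotentElem (∑ j ∈ Finset.Iic i, e j),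
      ∀ N : ModuleCat.{0} hf.Corner, IsSimpleModule hf.Corner N →
        (∃ (x : hf.Corner) (y : N), x.1 = e i ∧ x • y ≠ 0) → HasProjectiveDimensionLT N 2)
    (d : ℕ) : ∀ (i : ℕ) (hi : i < n + 2), 1 ≤ i → i + d = n + 1 → ∀ (f : A) (hf : IsIdempotentElem f),
      f = ∑ j ∈ Finset.Iic (⟨i, hi⟩ : Fin (n + 2)), e j → GlLT hf.Corner 4 := by
  induction d with
  | zero =>
    intro i hi _ hid f hf hF
    refine GlLT_corner_one hf ?_ 4 h3
    rw [hF, ← h.sum]
    refine Finset.sum_congr ?_ (fun _ _ => rfl)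
    ext j
    simp only [Finset.mem_Iic, Fin.le_def, Finset.mem_univ, iff_true]
    have := j.2
    omega
  | succ d ih =>
    intro i hi h1 hid f hf hF
    have hi' : i + 1 < n + 2 := by omega
    -- the next corner
    set f' : A := ∑ j ∈ Finset.Iic (⟨i + 1, hi'⟩ : Fin (n + 2)), e j with hf'def
    have hf'i : IsIdempotentElem f' := by
      show f' * f' = f'
      conv_lhs => rw [hf'def]
      rw [Finset.sum_mul]
      conv_rhs => rw [hf'def]
      refine Finset.sum_congr rfl (fun j hj => ?_)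
      rw [Finset.mem_Iic, Fin.le_def] at hj
      exact (mem_ends h (i + 1) hi' hf'def j hj).2
    have hgl' : GlLT hf'i.Corner 4 := ih (i + 1) hi' (by omega) (by omega) f' hf'i hf'def
    obtain ⟨g, hg1, hg2⟩ := exists_g h (i + 1) hi' hf'i hf'def
    have hlast : (g (Fin.last (i + 1))).1 = e ⟨i + 1, hi'⟩ := by
      rw [hg1]
      rfl
    have hidem : IsIdempotentElem (1 - g (Fin.last (i + 1))) := (hg2.idem _).one_sub
    have hproj : Module.Projective hidem.Corner (CDC.FM hidem hf'i.Corner) := by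
      refine fA_proj hg2 ⟨4, hgl'⟩ (Fin.last (i + 1)) hidem ?_
      rintro N hN ⟨y, hy⟩
      exact hflag ⟨i + 1, hi'⟩ (by show 2 ≤ i + 1; omega) hf'i N hN ⟨_, y, hlast, hy⟩
    have hgl'' : GlLT hidem.Corner 4 := gl_of_proj hidem hproj 4 hgl'
    have hval : (1 - g (Fin.last (i + 1))).1 = f := by
      show f' - (g (Fin.last (i + 1))).1 = f
      rw [hlast, hF, hf'def, sub_eq_iff_eq_add]
      have : Finset.Iic (⟨i + 1, hi'⟩ : Fin (n + 2)) =
          insert (⟨i + 1, hi'⟩ : Fin (n + 2)) (Finset.Iic (⟨i, hi⟩ : Fin (n + 2))) := by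
        ext j
        simp only [Finset.mem_insert, Finset.mem_Iic, Fin.le_def, Fin.ext_iff]
        omega
      rw [this, Finset.sum_insert, add_comm]
      simp [Finset.mem_Iic, Fin.le_def]
    have hval' : IsIdempotentElem (1 - g (Fin.last (i + 1))).1 := by
      rw [hval]
      exact hf
    have := GlLT_corner_corner hf'i (1 - g (Fin.last (i + 1))) hidem hval' 4 hgl''
    have h4 : ∀ (y : A) (_ : y = f) (hy : IsIdempotentElem y), GlLT hy.Corner 4 → GlLT hf.Corner 4 := by
      rintro _ rfl hy hyy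
      exact hyy
    exact h4 _ hval hval' this

end

theorem cartan_gl3 (k : Type) [Field k] (A : Type) [Ring A] [Algebra k A] [Module.Finite k A] (n : ℕ)
    (e : Fin (n + 2) → A) (h : CDN.Elem k e) (h3 : GlLT A 4)
    (hflag : ∀ i : Fin (n + 2), 2 ≤ i.1 → ∀ hf : IsIdempotentElem (∑ j ∈ Finset.Iic i, e j),
      ∀ N : ModuleCat.{0} hf.Corner, IsSimpleModule hf.Corner N →
        (∃ (x : hf.Corner) (y : N), x.1 = e i ∧ x • y ≠ 0) → HasProjectiveDimensionLT N 2) :
    Matrix.det (Matrix.of fun i j : Fin (n + 2) => (CDC.la k (e i) (e j) : ℤ)) = 1 := by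
  classical
  have hglall : ∀ (i : ℕ) (hi : i < n + 2), 1 ≤ i → ∀ (f : A) (hf : IsIdempotentElem f),
      f = ∑ j ∈ Finset.Iic (⟨i, hi⟩ : Fin (n + 2)), e j → GlLT hf.Corner 4 := fun i hi h1 f hf hF =>
    gl_all h h3 hflag (n + 1 - i) i hi h1 (by omega) f hf hF
  have hloc := fun i => CDN.el_loc h i
  have hd : ∀ i, (CDC.la k (e i) (e i) : ℚ) - (CDC.lj k (e i) : ℚ) = 1 := by
    intro i
    rw [el_len_one h i]
    push_cast
    ring
  -- primitive and non-isomorphic
  have hprim : ∀ i, IsIdempotentElem (e i) ∧ e i ≠ 0 ∧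
        ∀ g : A, IsIdempotentElem g → e i * g = g → g * e i = g → g = 0 ∨ g = e i := by
    intro i
    refine ⟨h.idem i, h.ne i, fun g hg h1 h2 => ?_⟩
    rcases (hloc i).2 g (by rw [h1, h2]) with ⟨y, hy1, hy2, hy3⟩ | hnil
    · right
      calc g = g * e i := h2.symm
        _ = g * (g * y) := by rw [hy2]
        _ = g * y := by rw [← mul_assoc, hg.eq]
        _ = e i := hy2
    · left
      obtain ⟨N, hN⟩ := hnil
      rcases Nat.eq_zero_or_pos N with h0 | hpos
      · rw [h0, pow_zero] at hN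
        rw [← mul_one g, hN, mul_zero]
      · rw [← hg.pow_succ_eq (N - 1), Nat.sub_add_cancel hpos]
        exact hN
  have hniso : ∀ i j, i ≠ j → ¬ ∃ a b : A,
        e i * a * e j = a ∧ e j * b * e i = b ∧ a * b = e i ∧ b * a = e j := by
    rintro i j hij ⟨a, b, ha, _, hab, _⟩
    have h1 : a ∈ (⊥ : Ideal A).jacobson := by
      rw [← ha]
      exact CDN.el_rad h i j hij a
    have h2 : e i ∈ (⊥ : Ideal A).jacobson := by
      have h3 : e i * (a * b) * e i ∈ (⊥ : Ideal A).jacobson := by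
        have : IsArtinianRing A := isArtinian_of_tower k inferInstance
        have h4 : a * b ∈ (⊥ : Ideal A).jacobson := Ideal.mul_mem_right b _ h1
        exact Ideal.mul_mem_right _ _ (Ideal.mul_mem_left _ _ h4)
      rwa [hab, (h.idem i).eq, (h.idem i).eq] at h3
    obtain ⟨N, hN⟩ := CDN.jac_nilp (k := k) h2
    have h5 : e i = 0 := by
      rcases Nat.eq_zero_or_pos N with h0 | hpos
      · rw [h0, pow_zero] at hN
        rw [← mul_one (e i), hN, mul_zero]
      · rw [← (h.idem i).pow_succ_eq (N - 1), Nat.sub_add_cancel hpos]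
        exact hN
    exact h.ne i h5
  let blk : Fin (n + 2) → ℕ := fun j => j.1 - 1
  have hfil : ∀ i, (Finset.univ.filter (fun j => blk j ≤ i)) =
      Finset.Iic (⟨min (i + 1) (n + 1), by omega⟩ : Fin (n + 2)) := by
    intro i
    ext j
    simp only [Finset.mem_filter, Finset.mem_univ, true_and, Finset.mem_Iic, Fin.le_def, blk]
    have := j.2
    omega
  have hgl : ∀ i, ∀ hf : IsIdempotentElem (∑ j ∈ Finset.univ.filter (fun j => blk j ≤ i), e j),
      ∃ m : ℕ, ∀ M : ModuleCat.{0} hf.Corner, CategoryTheory.HasProjectiveDimensionLT M m := by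
    intro i hf
    refine ⟨4, hglall (min (i + 1) (n + 1)) (by omega) (by omega) _ hf ?_⟩
    rw [hfil i]
  have haut : ∀ i, 1 ≤ i → ∀ hf : IsIdempotentElem (∑ j ∈ Finset.univ.filter (fun j => blk j ≤ i), e j),
      ∀ a b, blk a = i → blk b = i → ∃ φ : hf.Corner ≃+* hf.Corner,
        (∀ x : hf.Corner, x.1 = e a → (φ x).1 = e b) ∧
        ∀ c, blk c = i → ∃ d, blk d = i ∧ ∀ x : hf.Corner, x.1 = e c → (φ x).1 = e d := by
    intro i hi hf a b ha hb
    have hab : a = b := by
      apply Fin.ext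
      simp only [blk] at ha hb
      omega
    subst hab
    exact ⟨RingEquiv.refl _, fun x hx => hx, fun c hc => ⟨c, hc, fun x hx => hx⟩⟩
  have main := CDC.cartan_flag k A (n + 2) e blk hprim h.orth hniso hgl haut
    (Matrix.of fun i j : Fin (n + 2) => (CDC.la k (e i) (e j) : ℚ) /
      ((CDC.la k (e i) (e i) : ℚ) - (CDC.lj k (e i) : ℚ))) (fun i j => rfl)
  -- the base
  have h01 : (1 : ℕ) < n + 2 := by omega
  have hfI : IsIdempotentElem (∑ j ∈ Finset.Iic (⟨1, h01⟩ : Fin (n + 2)), e j) := by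
    show (∑ j ∈ Finset.Iic (⟨1, h01⟩ : Fin (n + 2)), e j) * (∑ j ∈ Finset.Iic (⟨1, h01⟩ : Fin (n + 2)), e j) = _
    rw [Finset.sum_mul]
    refine Finset.sum_congr rfl (fun j hj => ?_)
    rw [Finset.mem_Iic, Fin.le_def] at hj
    exact (mem_ends h 1 h01 rfl j hj).2
  obtain ⟨g, hg1, hg2⟩ := exists_g h 1 h01 hfI rfl
  have hbase := CDN.cartan_two k hfI.Corner g hg2 (hglall 1 h01 le_rfl _ hfI rfl)
  let E : Fin 2 ≃ {j : Fin (n + 2) // blk j = 0} :=
    { toFun := fun j => ⟨Fin.castLE h01 j, by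
        show (Fin.castLE h01 j).1 - 1 = 0
        have := j.2
        simp only [Fin.val_castLE]
        omega⟩
      invFun := fun j => ⟨j.1.1, by
        have h1 : j.1.1 - 1 = 0 := j.2
        omega⟩
      left_inv := fun j => rfl
      right_inv := fun j => rfl }
  have hbase' : ((Matrix.of fun i j : Fin (n + 2) => (CDC.la k (e i) (e j) : ℚ) /
      ((CDC.la k (e i) (e i) : ℚ) - (CDC.lj k (e i) : ℚ))).submatrix
        (Subtype.val : {j : Fin (n + 2) // blk j = 0} → Fin (n + 2)) Subtype.val).det = 1 := by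
    rw [← Matrix.det_submatrix_equiv_self E]
    have h5 : (((Matrix.of fun i j : Fin (n + 2) => (CDC.la k (e i) (e j) : ℚ) /
      ((CDC.la k (e i) (e i) : ℚ) - (CDC.lj k (e i) : ℚ))).submatrix
        (Subtype.val : {j : Fin (n + 2) // blk j = 0} → Fin (n + 2)) Subtype.val).submatrix E E) =
        (Matrix.of fun i j : Fin 2 => (CDC.la k (g i) (g j) : ℤ)).map (Int.castRingHom ℚ) := by
      ext i j
      simp only [Matrix.submatrix_apply, Matrix.of_apply, Matrix.map_apply]
      rw [hd, div_one, CDC.corner_len k hfI (g i) (g j), hg1, hg1]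
      rfl
    rw [h5, ← RingHom.mapMatrix_apply, ← RingHom.map_det, hbase, map_one]
  rw [hbase'] at main
  have h6 : (Matrix.of fun i j : Fin (n + 2) => (CDC.la k (e i) (e j) : ℚ) /
      ((CDC.la k (e i) (e i) : ℚ) - (CDC.lj k (e i) : ℚ))) =
      (Matrix.of fun i j : Fin (n + 2) => (CDC.la k (e i) (e j) : ℤ)).map (Int.castRingHom ℚ) := by
    ext i j
    simp only [Matrix.of_apply, Matrix.map_apply]
    rw [hd, div_one]
    rfl
  rw [h6, ← RingHom.mapMatrix_apply, ← RingHom.map_det] at main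
  have h7 : ((Matrix.det (Matrix.of fun i j : Fin (n + 2) => (CDC.la k (e i) (e j) : ℤ)) : ℤ) : ℚ) = ((1 : ℤ) : ℚ) := by
    rw [Int.cast_one]
    exact main
  exact_mod_cast h7

end Pool.Agent.CDR
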