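import Pool.Agent.Lib.MP_a20de0_al.CDR.FMPd
import Pool.Agent.Lib.MP_a20de0_al.CDR.Coind

set_option autoImplicit false

/-! CDR-GlCorner.  `gl_of_proj`: `coind` and `FM_pd`.  `GlLT_ringEquiv`: restriction of scalars (compare `CDC.FinGl_of_ringEquiv`).
`GlLT_corner_corner`: compare `CDC.FinGl_corner_corner`. -/

namespace Pool.Agent.CDR

open CategoryTheory

theorem gl_of_proj {A : Type} [Ring A] {f : A} (hf : IsIdempotentElem f)
    (hA : Module.Projective hf.Corner (CDC.FM hf A)) (m : ℕ) (h : GlLT A m) : GlLT hf.Corner m := by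
  intro N
  obtain ⟨M, iM, iM', ⟨θ⟩⟩ := coind hf N
  have h1 := FM_pd hf hA m M (h (ModuleCat.of A M))
  exact hasProjectiveDimensionLT_of_iso (X' := ModuleCat.of hf.Corner N) θ.toModuleIso m

theorem GlLT_ringEquiv {A B : Type} [Ring A] [Ring B] (φ : A ≃+* B) (m : ℕ) (h : GlLT A m) : GlLT B m := by
  intro N
  letI : Module A N := Module.compHom N (RingHomClass.toRingHom φ)
  have hm1 := h (ModuleCat.of A N)
  rcases m with _ | m
  · have h0 : Limits.IsZero (ModuleCat.of A N) := (hasProjectiveDimensionLT_zero_iff_isZero _).1 hm1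
    have h1 : Subsingleton N := (ModuleCat.isZero_iff_subsingleton (M := ModuleCat.of A N)).1 h0
    exact (ModuleCat.isZero_iff_subsingleton.2 h1).hasProjectiveDimensionLT_zero
  · have hm2 : HasProjectiveDimensionLE (ModuleCat.of A N) m := hm1
    have hp1 := RingHomInvPair.of_ringEquiv φ
    have hp2 := RingHomInvPair.of_ringEquiv φ.symm
    let e' : (ModuleCat.of A N) ≃ₛₗ[RingHomClass.toRingHom φ] N :=
      { toFun := fun x => x
        invFun := fun x => x
        map_add' := fun _ _ => rfl
        map_smul' := fun _ _ => rfl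
        left_inv := fun _ => rfl
        right_inv := fun _ => rfl }
    exact ModuleCat.hasProjectiveDimensionLE_of_semiLinearEquiv φ e' m

theorem GlLT_corner_corner {A : Type} [Ring A] {f : A} (hf : IsIdempotentElem f) (g : hf.Corner)
    (hg : IsIdempotentElem g) (hg' : IsIdempotentElem g.1) (m : ℕ) (h : GlLT hg.Corner m) : GlLT hg'.Corner m := by
  have hx : ∀ x : hg'.Corner, f * x.1 = x.1 ∧ x.1 * f = x.1 := by
    intro x
    obtain ⟨h1, h2⟩ := CDC.corner_mem hf g
    obtain ⟨h3, h4⟩ := CDC.corner_mem hg' x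
    constructor
    · rw [← h3, ← mul_assoc, h1]
    · rw [← h4, mul_assoc, h2]
  refine GlLT_ringEquiv (A := hg.Corner) (B := hg'.Corner) ?_ m h
  exact
    { invFun := fun x => CDC.mkC hg (CDC.mkC hf x.1 (hx x))
        ⟨Subtype.ext (CDC.corner_mem hg' x).1, Subtype.ext (CDC.corner_mem hg' x).2⟩
      toFun := fun y => CDC.mkC hg' y.1.1 ⟨congrArg Subtype.val (CDC.corner_mem hg y).1, congrArg Subtype.val (CDC.corner_mem hg y).2⟩
      left_inv := fun _ => rfl
      right_inv := fun _ => rfl
      map_mul' := fun _ _ => rfl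
      map_add' := fun _ _ => rfl }

end Pool.Agent.CDR
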